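import Pool.Agent.Q271.CF.Final

/-!
# Every claw-free cubic graph is `(1,1,2,3)`-packing colourable (MP_b5f1b3_co, Q1)
-/

namespace Pool.Agent.Results.MP_b5f1b3_co.AllClawFree

/-- No induced `K_{1,3}`: among any three neighbours of a vertex, two are adjacent. -/
def ClawFree {V : Type*} (G : SimpleGraph V) : Prop :=
  ∀ v x y z, G.Adj v x → G.Adj v y → G.Adj v z → x ≠ y → x ≠ z → y ≠ z →
    G.Adj x y ∨ G.Adj x z ∨ G.Adj y z

/-- `X` is an `s`-packing: any two distinct vertices of `X` have distance greater than `s`, that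
is, every walk between them has length greater than `s`. -/
def IsPacking {V : Type*} (G : SimpleGraph V) (s : ℕ) (X : Set V) : Prop :=
  ∀ u ∈ X, ∀ v ∈ X, u ≠ v → ∀ w : G.Walk u v, s < w.length

/-- The vertex set is partitioned into two 1-packings, a 2-packing and a 3-packing. -/
def PackingColourable1123 {V : Type*} (G : SimpleGraph V) : Prop :=
  ∃ X : Fin 4 → Set V, (∀ v, ∃! i, v ∈ X i) ∧ IsPacking G 1 (X 0) ∧ IsPacking G 1 (X 1) ∧
    IsPacking G 2 (X 2) ∧ IsPacking G 3 (X 3)

open Pool.Agent.Q271.CF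

theorem cub_of_regular {V : Type*} [Fintype V] {G : SimpleGraph V} [DecidableRel G.Adj]
    (h : G.IsRegularOfDegree 3) : Cub G := by
  classical
  intro v
  have h1 := h v
  rw [← SimpleGraph.card_neighborFinset_eq_degree, Finset.card_eq_three] at h1
  obtain ⟨x, y, z, hxy, hxz, hyz, hn⟩ := h1
  refine ⟨x, y, z, hxy, hxz, hyz, fun u => ?_⟩
  rw [← SimpleGraph.mem_neighborFinset, hn]
  simp

theorem near_of_walk {V : Type*} {G : SimpleGraph V} {u v : V} (huv : u ≠ v) (w : G.Walk u v)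
    (hw : w.length ≤ 3) : Near3 G u v ∧ (w.length ≤ 2 → G.Adj u v ∨ ∃ x, G.Adj u x ∧ G.Adj x v) ∧
      (w.length ≤ 1 → G.Adj u v) := by
  cases w with
  | nil => exact absurd rfl huv
  | cons h1 w =>
    cases w with
    | nil => exact ⟨Or.inl h1, fun _ => Or.inl h1, fun _ => h1⟩
    | cons h2 w =>
      cases w with
      | nil =>
        exact ⟨Or.inr (Or.inl ⟨_, h1, h2⟩), fun _ => Or.inr ⟨_, h1, h2⟩,
          fun h => by simp at h⟩
      | cons h3 w =>
        cases w with
        | nil =>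
          exact ⟨Or.inr (Or.inr ⟨_, _, h1, h2, h3⟩), fun h => by simp at h, fun h => by simp at h⟩
        | cons h4 w =>
          simp only [SimpleGraph.Walk.length_cons] at hw
          omega

/-- Every claw-free cubic graph is `(1,1,2,3)`-packing colourable. -/
theorem result {V : Type*} [Fintype V] (G : SimpleGraph V) [DecidableRel G.Adj]
    (hcubic : G.IsRegularOfDegree 3) (hclaw : ClawFree G) : PackingColourable1123 G := by
  classical
  rcases isEmpty_or_nonempty V with hV | hV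
  · refine ⟨fun _ => ∅, fun v => isEmptyElim v, ?_, ?_, ?_, ?_⟩ <;>
      exact fun u hu => absurd hu (Set.notMem_empty u)
  obtain ⟨A, B, c, hAB, hA, hB, hc⟩ := main (cub_of_regular hcubic) hclaw
  have hdis : ∀ v, v ∈ A → v ∉ B := fun v h h' => Set.disjoint_left.1 hAB h h'
  let k : V → Fin 4 := fun v =>
    if v ∈ A then 2 else if v ∈ B then 3 else if c v = true then 0 else 1
  have kk : ∀ v, (v ∈ A ∧ k v = 2) ∨ (v ∉ A ∧ v ∈ B ∧ k v = 3) ∨
      (v ∉ A ∧ v ∉ B ∧ c v = true ∧ k v = 0) ∨ (v ∉ A ∧ v ∉ B ∧ c v = false ∧ k v = 1) := by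
    intro v
    by_cases h1 : v ∈ A
    · exact Or.inl ⟨h1, if_pos h1⟩
    · by_cases h2 : v ∈ B
      · exact Or.inr (Or.inl ⟨h1, h2, by simp only [k]; rw [if_neg h1, if_pos h2]⟩)
      · by_cases h3 : c v = true
        · exact Or.inr (Or.inr (Or.inl ⟨h1, h2, h3,
            by simp only [k]; rw [if_neg h1, if_neg h2, if_pos h3]⟩))
        · exact Or.inr (Or.inr (Or.inr ⟨h1, h2, by simpa using h3,
            by simp only [k]; rw [if_neg h1, if_neg h2, if_neg h3]⟩))
  have k0 : ∀ v, k v = 0 → v ∉ A ∧ v ∉ B ∧ c v = true := by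
    intro v hv
    rcases kk v with ⟨_, h⟩ | ⟨_, _, h⟩ | ⟨h1, h2, h3, _⟩ | ⟨_, _, _, h⟩
    · rw [hv] at h; exact absurd h (by decide)
    · rw [hv] at h; exact absurd h (by decide)
    · exact ⟨h1, h2, h3⟩
    · rw [hv] at h; exact absurd h (by decide)
  have k1 : ∀ v, k v = 1 → v ∉ A ∧ v ∉ B ∧ c v = false := by
    intro v hv
    rcases kk v with ⟨_, h⟩ | ⟨_, _, h⟩ | ⟨_, _, _, h⟩ | ⟨h1, h2, h3, _⟩
    · rw [hv] at h; exact absurd h (by decide)
    · rw [hv] at h; exact absurd h (by decide)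
    · rw [hv] at h; exact absurd h (by decide)
    · exact ⟨h1, h2, h3⟩
  have k2 : ∀ v, k v = 2 → v ∈ A := by
    intro v hv
    rcases kk v with ⟨h, _⟩ | ⟨_, _, h⟩ | ⟨_, _, _, h⟩ | ⟨_, _, _, h⟩
    · exact h
    · rw [hv] at h; exact absurd h (by decide)
    · rw [hv] at h; exact absurd h (by decide)
    · rw [hv] at h; exact absurd h (by decide)
  have k3 : ∀ v, k v = 3 → v ∈ B := by
    intro v hv
    rcases kk v with ⟨_, h⟩ | ⟨_, h, _⟩ | ⟨_, _, _, h⟩ | ⟨_, _, _, h⟩
    · rw [hv] at h; exact absurd h (by decide)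
    · exact h
    · rw [hv] at h; exact absurd h (by decide)
    · rw [hv] at h; exact absurd h (by decide)
  refine ⟨fun i => {v | k v = i}, fun v => ⟨k v, rfl, fun j hj => hj.symm⟩, ?_, ?_, ?_, ?_⟩
  · intro u hu v hv huv w
    by_contra hw
    push Not at hw
    have := (near_of_walk huv w (by omega)).2.2 hw
    obtain ⟨a1, a2, a3⟩ := k0 u hu
    obtain ⟨b1, b2, b3⟩ := k0 v hv
    exact hc u v a1 a2 b1 b2 this (a3.trans b3.symm)
  · intro u hu v hv huv w
    by_contra hw
    push Not at hw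
    have := (near_of_walk huv w (by omega)).2.2 hw
    obtain ⟨a1, a2, a3⟩ := k1 u hu
    obtain ⟨b1, b2, b3⟩ := k1 v hv
    exact hc u v a1 a2 b1 b2 this (a3.trans b3.symm)
  · intro u hu v hv huv w
    by_contra hw
    push Not at hw
    have h1 := (near_of_walk huv w (by omega)).2.1 hw
    have h2 := hA u (k2 u hu) v (k2 v hv) huv
    rcases h1 with h1 | h1
    · exact h2.1 h1
    · exact h2.2 h1
  · intro u hu v hv huv w
    by_contra hw
    push Not at hw
    exact hB u (k3 u hu) v (k3 v hv) huv (near_of_walk huv w hw).1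

end Pool.Agent.Results.MP_b5f1b3_co.AllClawFree
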